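import Pool.Agent.TH214.Q.Main
import Pool.Agent.W558.WT.Asm3
import Pool.Agent.W558.Var
import Pool.Agent.W135.WT.Fam

/-!
MP_19ffc6_ag: resolution of singularities for the quotients of products of surfaces of
characteristic `p` by finite abelian groups which act factorwise, if the order of the group of
automorphisms induced on each factor is not divisible by `p ^ 2`; for example the quotients
`(X_1 × ... × X_n) / (ℤ/N)` by the diagonal action of a cyclic group of order `N = p * m`, `m` prime
to `p`. MP_19ffc6_ag.SurfaceProductQuotients of the starting files is the case of the elementary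
abelian `p`-groups.

The proof: let `F_i` be the field of invariants of the function field of `X_i` and `L` the
function field of the product of the `X_i / G`. (1) The function field of the quotient is
generated over `L` by products of eigenvectors of the group in the function fields of the `X_i`,
whose `m`-th powers are products `∏ g_i` of functions `g_i ∈ F_i`, and by Artin-Schreier
elements `w ^ p - w = ∑ c_i f_i`, `f_i ∈ F_i`, `c_i` in the prime field. (2) The surfaces
`X_i / G` are blown up in points until the `f_i` have Giraud's normal form and the `g_i` are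
locally monomials (starting library). (3) NEW: the Kummer extension of `L` is embedded in the product
of a model of `L` and a torus, with the equations `Y ^ m = ∏ g_i`; on a suitable toroidal
blowup of this product the strict transforms of the equations define a smooth subscheme with
normal crossings with the boundary, to which the normal form of the `f_i` can be extended:
relative version, over an arbitrary model with a normal form, of our theorem on schön
subvarieties (MP_19ffc6_ag.SchonCovers). (4) The tower of Artin-Schreier extensions is constructed
by the theorem of the starting library.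

helper214; built on the library of the starting files (helper558's team: helpers 33, 369, 405, 368,
356, 29, 230, 32, 906, 191, 410, 435, 376, 382, 348, 135, 991, 366, 74, 305, 417, 440, 409, 174, 290,
392, 352, 565, 335, 924, 337, 347, 479, 959, 727, 202 and others).
-/

set_option autoImplicit false

open AlgebraicGeometry CategoryTheory Pool.Agent.W558

universe u

namespace Pool.Agent.Results.MP_19ffc6_ag.AbelianQuotients

/-- The algebra `B` with the homomorphisms `j i : A i → B` is the tensor product over `k` of the
algebras `A i`: homomorphisms `f i` from the `A i` to a commutative `k`-algebra `S` correspond to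
homomorphisms `g` from `B` to `S`. So `Spec B` is the product of the `Spec (A i)` over `k`. -/
def IsTensorProduct {k : Type u} [Field k] {n : ℕ} {A : Fin n → Type u} [∀ i, CommRing (A i)]
    [∀ i, Algebra k (A i)] {B : Type u} [CommRing B] [Algebra k B] (j : ∀ i, A i →ₐ[k] B) :
    Prop :=
  ∀ (S : Type u) [CommRing S] [Algebra k S] (f : ∀ i, A i →ₐ[k] S),
    ∃! g : B →ₐ[k] S, ∀ i a, g (j i a) = f i a

/-- The coordinate ring `k[H_0 / H_j, ..., H_N / H_j]` of the chart `H_j ≠ 0` of the projective
variety over `k` with the homogeneous coordinates `H_0, ..., H_N` in a field `K`. -/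
def chart (k : Type u) {K : Type u} [Field k] [Field K] [Algebra k K] {N : ℕ}
    (H : Fin (N + 1) → K) (j : Fin (N + 1)) : Subalgebra k K :=
  Algebra.adjoin k (Set.range fun l => H l / H j)

/-- The quotient of the affine variety `Spec A` by the group `G`, acting by the automorphisms
`ρ g`, is birational to a smooth projective variety. Here `K` is the fraction field of `A`, the
projective variety is given by homogeneous coordinates `H_0, ..., H_N` in `K`: its charts are
smooth over `k`, and its function field, the field of quotients of elements of a chart,
consists of the invariant elements `a / b` of `K`, `(g a) / (g b) = a / b` for all `g ∈ G`. For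
surfaces over perfect fields this condition is always satisfied by the resolution of
singularities of surfaces. -/
def HasSmoothProjectiveQuotient {k A : Type u} (K : Type u) [Field k] [CommRing A] [Algebra k A]
    [Field K] [Algebra k K] [Algebra A K] {G : Type} [CommGroup G] (ρ : G →* (A ≃ₐ[k] A)) :
    Prop :=
  ∃ (N : ℕ) (H : Fin (N + 1) → K), (∀ l, H l ≠ 0) ∧
    (∀ j, Algebra.Smooth k (chart k H j)) ∧
    ∀ j (a b : A), b ≠ 0 → ((∀ g, ρ g a * b = a * ρ g b) ↔
      ∃ u ∈ chart k H j, ∃ v ∈ chart k H j, v ≠ 0 ∧ algebraMap A K a / algebraMap A K b = u / v)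

/-- The algebra of invariants of the group `G`. -/
def invariants {k B : Type u} [Field k] [CommRing B] [Algebra k B] {G : Type} [CommGroup G]
    (ρ : G →* (B ≃ₐ[k] B)) : Subalgebra k B where
  carrier := {b | ∀ g, ρ g b = b}
  mul_mem' := fun ha hb g => by rw [map_mul, ha g, hb g]
  add_mem' := fun ha hb g => by rw [map_add, ha g, hb g]
  algebraMap_mem' := fun c g => AlgEquiv.commutes _ c

/-- The structure morphism of the quotient of `Spec B` by `G`, the spectrum of the algebra of
invariants. -/
noncomputable def quotStr {k B : Type u} [Field k] [CommRing B] [Algebra k B] {G : Type}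
    [CommGroup G] (ρ : G →* (B ≃ₐ[k] B)) :
    Spec (CommRingCat.of (invariants ρ)) ⟶ Spec (CommRingCat.of k) :=
  Spec.map (CommRingCat.ofHom (algebraMap k (invariants ρ)))

/-- Let `p` be a prime, `m > 0`, and let `k` be a perfect field of characteristic `p` which
contains a primitive `m`-th root of unity (so `m` is prime to `p`). Let `G` be a finite
commutative group with `g ^ (p * m) = 1` for all `g ∈ G`. Let `Spec (A i)`, `i < n`, be affine
surfaces over `k`: the `A i` are domains of finite type and of dimension 2 over `k`. Let `G` act on
the `A i` by automorphisms over `k` such that the order of the group of automorphisms of `A i`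
induced by `G` is not divisible by `p ^ 2`, and such that the quotient of `Spec (A i)` by `G` is
birational to a smooth projective surface (this is always the case). Let `Spec B` be the
product of the surfaces over `k`, assumed to be integral, with the diagonal action of `G`. Then
the quotient of `Spec B` by `G` is a variety which has a resolution of singularities. -/
theorem result (p : ℕ) [Fact p.Prime] (k : Type u) [Field k] [CharP k p] [PerfectField k] (m : ℕ)
    (hm : 0 < m) (ζ : k) (hζ : IsPrimitiveRoot ζ m) (G : Type) [CommGroup G] [Finite G]
    (hG : ∀ g : G, g ^ (p * m) = 1) (n : ℕ) (A K : Fin n → Type u) [∀ i, CommRing (A i)]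
    [∀ i, IsDomain (A i)] [∀ i, Algebra k (A i)] [∀ i, Algebra.FiniteType k (A i)]
    (hA : ∀ i, Algebra.trdeg k (A i) = 2) [∀ i, Field (K i)] [∀ i, Algebra k (K i)]
    [∀ i, Algebra (A i) (K i)] [∀ i, IsScalarTower k (A i) (K i)]
    [∀ i, IsFractionRing (A i) (K i)] (ρ : ∀ i, G →* (A i ≃ₐ[k] A i))
    (hρ : ∀ i, ¬ p ^ 2 ∣ Nat.card (ρ i).range)
    (hq : ∀ i, HasSmoothProjectiveQuotient (K i) (ρ i))
    (B : Type u) [CommRing B] [IsDomain B] [Algebra k B] (j : ∀ i, A i →ₐ[k] B)
    (hj : IsTensorProduct j) (σ : G →* (B ≃ₐ[k] B))
    (hσ : ∀ g i a, σ g (j i a) = j i (ρ i g a)) :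
    IsResolvableVariety (quotStr σ) := by
  have hj' : Pool.Agent.W558.WT.IsTP j := by
    refine ⟨fun S _ _ f => (hj S f).exists, fun S _ _ g g' h => ?_⟩
    exact (hj S fun i => g.comp (j i)).unique (fun i a => rfl) fun i a => (h i a).symm
  have hfG : Fintype G := Fintype.ofFinite G
  have hm' : ∀ i, Algebra.trdeg k (Pool.Agent.W558.WT.fixF
      (Set.range (Pool.Agent.TH214.Q.liftG (K i) (ρ i)))) = 2 ∧
      Pool.Agent.W558.HasModel k (Pool.Agent.W558.WT.fixF
        (Set.range (Pool.Agent.TH214.Q.liftG (K i) (ρ i)))) := by
    intro i
    obtain ⟨N, H, h1, h2, h3⟩ := hq i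
    exact Pool.Agent.TH214.Q.modG k (A i) (K i) (ρ i) (Pool.Agent.TH214.Q.liftG (K i) (ρ i))
      (fun g a => Pool.Agent.TH214.Q.liftG_app (K i) (ρ i) g a) (hA i) N H h1 h2 h3
  obtain ⟨h1, h2⟩ := Pool.Agent.TH214.Q.quotA Pool.Agent.W558.wt_pack Pool.Agent.W558.ws_pack
    Pool.Agent.W558.wt_fri Pool.Agent.W558.wt_art
    (Pool.Agent.W135.WT.Fam.main Pool.Agent.W558.wa_prod) p k n A K B j hj' ρ σ hζ hm hG
    (fun i g g' hg hg' hne => Pool.Agent.TH214.Q.cyc_of_card (ρ i) (hρ i) g g' hg hg' hne)
    (fun i => (hm' i).1) (fun i => (hm' i).2) hσ (invariants σ) (fun b => Iff.rfl)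
  exact isResolvableVariety_spec h2

end Pool.Agent.Results.MP_19ffc6_ag.AbelianQuotients
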