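import Pool.Agent.TH214.Dom2

/-!
MP_19ffc6_ag: resolution of singularities, in all dimensions, of the elementary abelian covers of
exponent `p` of a smooth projective variety with a divisor with simple normal crossings over a
perfect field of characteristic `p` whose ramification is clean (non-degenerate) in the sense of
Kato: locally the Artin-Schreier equations have the form `w ^ p - w = x ^ n * h`, with the monomial
`x ^ n`, `n ≤ 0`, in the local equations of the boundary, where the logarithmic differentials
`d (x ^ n * h) / x ^ n` are linearly independent on the poles.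

The proof: for a single cover, in the projective line bundle with the coordinates `(w - a) / x ^ m`
the cover is the divisor `y ^ p - x ^ e * y = x ^ c * h`, and a sequence of blowups of
codimension two centres `x i = y = 0` and `x i = x j = 0` makes it smooth and transversal to the
boundary; logarithmic tangent vectors which are killed by the logarithmic differential of the
function can be lifted to this smooth model, so the normal form of the remaining functions is
preserved. All this is done in the library of the starting files (the proof of
MP_19ffc6_ag.SurfaceProductQuotients); here it is formulated for arbitrary clean covers, with the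
morphism of the smooth model to `X`, which gives the resolutions of the affine pieces of the
normalization of `X` in the cover.

helper214; built on the library of the starting files (helpers 558, 33, 369, 405, 368, 356, 29,
230, 32, 906, 191, 410, 435, 376, 382, 348, 135, 991, 366, 74, 305, 417, 440, 409, 174, 290, 392,
352, 565, 335, 924, 337, 347, 479, 959, 727, 202, 22 and others).
-/

set_option autoImplicit false

open AlgebraicGeometry CategoryTheory Pool.Agent.W558

universe u

namespace Pool.Agent.Results.MP_19ffc6_ag.CleanCovers

/-- The coordinate ring `k[H 0 / H j, ..., H N / H j]` of the chart `H j ≠ 0` of the projective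
variety over `k` with the homogeneous coordinates `H 0, ..., H N` in a field `K`. -/
def chart (k : Type u) {K : Type u} [Field k] [Field K] [Algebra k K] {N : ℕ}
    (H : Fin (N + 1) → K) (j : Fin (N + 1)) : Subalgebra k K :=
  Algebra.adjoin k (Set.range fun l => H l / H j)

/-- A tangent vector at the point `P : A → κ` of `Spec A`. -/
structure TangentVector {k A κ : Type u} [Field k] [CommRing A] [Algebra k A] [Field κ]
    [Algebra k κ] (P : A →ₐ[k] κ) where
  /-- the derivation -/
  D : A →ₗ[k] κ
  leibniz : ∀ a b, D (a * b) = P a * D b + P b * D a

/-- A logarithmic tangent vector at the point `P : A → κ` of `Spec A` with the divisor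
`x 1 * ... * x d = 0`: a tangent vector together with the values `e i` of `dx i / x i`. -/
structure LogTangentVector {k A κ : Type u} [Field k] [CommRing A] [Algebra k A] [Field κ]
    [Algebra k κ] (P : A →ₐ[k] κ) {d : ℕ} (x : Fin d → A) extends TangentVector P where
  /-- the values of `dx i / x i` -/
  e : Fin d → κ
  D_x : ∀ i, D (x i) = P (x i) * e i

/-- The value of the logarithmic differential form
`d (x ^ n * h) / x ^ n = dh + h * ∑ i, n i * dx i / x i` on the logarithmic tangent vector `v`. -/
def LogTangentVector.form {k A κ : Type u} [Field k] [CommRing A] [Algebra k A] [Field κ]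
    [Algebra k κ] {P : A →ₐ[k] κ} {d : ℕ} {x : Fin d → A} (v : LogTangentVector P x)
    (n : Fin d → ℤ) (h : A) : κ :=
  v.D h + P h * ∑ i, (n i : κ) * v.e i

/-- A smooth projective variety over `k` with the function field `K` and a divisor with simple
normal crossings on it, with the components `1, ..., d`. -/
structure SmoothPair (k K : Type u) [Field k] [Field K] [Algebra k K] (N d : ℕ) where
  /-- the homogeneous coordinates -/
  H : Fin (N + 1) → K
  H_ne : ∀ j, H j ≠ 0
  smooth : ∀ j, Algebra.Smooth k (chart k H j)
  isFractionRing : ∀ j, IsFractionRing (chart k H j) K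
  /-- the local equations of the components of the divisor on the charts -/
  x : ∀ j, Fin d → chart k H j
  x_ne : ∀ j i, x j i ≠ 0
  glue : ∀ j j' i, ∃ m : ℕ, (H j' / H j) ^ m * ((x j' i : K) / x j i) ∈ chart k H j
  snc : ∀ j (κ : Type u) [Field κ] [Algebra k κ] (P : chart k H j →ₐ[k] κ) (i : Fin d),
    P (x j i) = 0 → ∃ D : TangentVector P, D.D (x j i) = 1 ∧
      ∀ l, l ≠ i → P (x j l) = 0 → D.D (x j l) = 0

/-- The Artin-Schreier covers of `X` given by the functions `f t` are jointly clean: on the chart
`j` we have `f t = a ^ p - a + x ^ (n t) * h`, for some exponents `n t i ≤ 0` which do not depend on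
the chart, some `a ∈ K` and some regular function `h`, such that, at every point, for every `t` such
that the point lies on a component `i` with `n t i < 0`, the value at the point of the
logarithmic differential form `ω t = d (x ^ (n t) * h) / x ^ (n t)` is not a linear combination of
the values of the other forms `ω t'`. For a single function `f` this says that `ω` has no zeros
on the components `i` with `n i < 0`, which is the cleanness of Kato. -/
def JointlyClean (p : ℕ) {k K : Type u} [Field k] [Field K] [Algebra k K] {N d s : ℕ}
    (X : SmoothPair k K N d) (f : Fin s → K) : Prop :=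
  ∃ (n : Fin s → Fin d → ℤ) (a : Fin (N + 1) → Fin s → K)
    (h : ∀ j, Fin s → chart k X.H j),
    (∀ t i, n t i ≤ 0) ∧
    (∀ j t, f t = a j t ^ p - a j t + (∏ i, (X.x j i : K) ^ n t i) * h j t) ∧
    ∀ j (κ : Type u) [Field κ] [Algebra k κ] (P : chart k X.H j →ₐ[k] κ) (t : Fin s),
      (∃ i, n t i < 0 ∧ P (X.x j i) = 0) →
      ∃ v : LogTangentVector P (X.x j), v.form (n t) (h j t) ≠ 0 ∧
        ∀ t', t' ≠ t → v.form (n t') (h j t') = 0

/-- The zeros and poles of the function `g` are contained in the divisor: on the charts it is the
product of a unit and of powers of the local equations. -/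
def IsBoundaryFunction {k K : Type u} [Field k] [Field K] [Algebra k K] {N d : ℕ}
    (X : SmoothPair k K N d) (g : K) : Prop :=
  ∃ γ : Fin d → ℤ, ∀ j, ∃ u : (chart k X.H j)ˣ,
    g = ((u : chart k X.H j) : K) * ∏ i, (X.x j i : K) ^ γ i

/-- Let `k` be a perfect field of characteristic `p`, `X` a smooth projective variety over `k` with
the function field `K` and a divisor with simple normal crossings, and let `f 1, ..., f s` be
elements of `K` such that the Artin-Schreier covers of `X` given by them are jointly clean. Let
`K'` be an elementary abelian extension of `K` of exponent `p` generated by elements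
`w 1, ..., w r` such that every `w j ^ p - w j` is a linear combination of the `f t` with integral
coefficients, up to elements `b ^ p - b`, `b ∈ K`. Let `A` be a finitely generated `k`-algebra with
fraction field `K'`, `J` a set of charts and `S` a finite subset of `A`, such that `A` contains the
coordinate rings of the charts `j ∈ J`, the elements of `S` are elements of `K` whose zeros and
poles are contained in the divisor, and `A` is integral over the subalgebra generated by the
coordinate rings of the charts `j ∈ J` and `S`. Then the variety `Spec A` has a resolution of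
singularities.

For `J = {j}` and empty `S`, `Spec A` can be the preimage of the affine chart `H j ≠ 0` in
the normalization of `X` in `K'`. For empty `J`, one obtains the normalizations in `K'` of affine
varieties whose coordinate rings are generated by functions with zeros and poles in the divisor. -/
theorem result (p : ℕ) [Fact p.Prime] (k K K' : Type u) [Field k] [PerfectField k] [CharP k p]
    [Field K] [Algebra k K] [Field K'] [Algebra k K'] [Algebra K K'] [IsScalarTower k K K']
    (N d s r : ℕ) (X : SmoothPair k K N d) (f : Fin s → K) (hf : JointlyClean p X f)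
    (w : Fin r → K')
    (hw : ∀ j, w j ^ p - w j ∈ AddSubgroup.closure
      ((Set.range fun t => algebraMap K K' (f t)) ∪
        Set.range fun b : K => algebraMap K K' (b ^ p - b)))
    (hgen : IntermediateField.adjoin K (Set.range w) = ⊤)
    (A : Type u) [CommRing A] [IsDomain A] [Algebra k A] [Algebra.FiniteType k A] [Algebra A K']
    [IsScalarTower k A K'] [IsFractionRing A K'] (J : Finset (Fin (N + 1)))
    (hJ : ∀ j ∈ J, ∀ g ∈ chart k X.H j, ∃ a : A, algebraMap A K' a = algebraMap K K' g)
    (S : Finset A)
    (hS : ∀ a ∈ S, ∃ g : K, IsBoundaryFunction X g ∧ algebraMap A K' a = algebraMap K K' g)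
    (hA : ∀ a : A, IsIntegral (Algebra.adjoin k ((S : Set A) ∪
      {b : A | ∃ j ∈ J, ∃ g ∈ chart k X.H j, algebraMap A K' b = algebraMap K K' g})) a) :
    IsResolvableVariety (X := Spec (CommRingCat.of A))
      (Spec.map (CommRingCat.ofHom (algebraMap k A))) := by
  classical
  apply isResolvableVariety_spec
  obtain ⟨n, a, h, hn, hfe, hcl⟩ := hf
  let M : LM (⊥ : Subalgebra k K) ⊤ (Fin (N + 1)) (Fin d) :=
    Pool.Agent.TH214.pairLM X.H (fun j i => (X.x j i : K)) X.H_ne X.smooth
      (fun j i => (X.x j i).2) (fun j i h0 => X.x_ne j i (Subtype.ext h0)) X.glue (by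
        intro j κ _ _ P i hi h0
        obtain ⟨D, h1, h2⟩ := X.snc j κ P i h0
        exact ⟨⟨D.D, D.leibniz⟩, h1, fun l hl hne hl0 => h2 l hne hl0⟩)
  obtain ⟨e⟩ : Nonempty ({a // a ∈ S} ≃ Fin S.card) := ⟨S.equivFin⟩
  choose g hgb hga using fun b : Fin S.card => hS (e.symm b).1 (e.symm b).2
  choose γ u hgu using hgb
  have hN : NBS p M f n a (fun j t => (h j t : K)) := by
    refine ⟨hn, fun j t => (h j t).2, hfe, ?_⟩
    intro j κ _ _ P t ht
    obtain ⟨v, hv1, hv2⟩ := hcl j κ P t ht
    exact ⟨⟨⟨v.D, v.leibniz⟩, v.e, fun i hi => v.D_x i⟩, hv1, hv2⟩
  have hG : Fn M g γ := by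
    intro b j
    refine ⟨((u b j : chart k X.H j) : K), ?_, ((u b j : chart k X.H j)).2, ?_, hgu b j⟩
    · intro h0
      exact (u b j).ne_zero (Subtype.ext h0)
    · have h1 : ((u b j : chart k X.H j) : K)⁻¹ = (((u b j)⁻¹ : (chart k X.H j)ˣ) : K) := by
        refine inv_eq_of_mul_eq_one_right ?_
        have h2 := congrArg (fun z : chart k X.H j => (z : K)) (u b j).mul_inv
        exact h2
      rw [h1]
      exact (((u b j)⁻¹ : (chart k X.H j)ˣ) : chart k X.H j).2
  have hR : Frc M := by
    intro j z
    have := X.isFractionRing j
    obtain ⟨a', b', hb', rfl⟩ := IsFractionRing.div_surjective (A := chart k X.H j) z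
    exact ⟨a', a'.2, b', b'.2, fun h0 => nonZeroDivisors.ne_zero hb' (Subtype.ext h0),
      div_eq_mul_inv _ _⟩
  obtain ⟨T, I, hT, hI, ⟨M'⟩⟩ := Pool.Agent.TH214.LM_of_NBSd p k K K' M hN hG hR w hw hgen A J hJ
    (fun b => (e.symm b).1) hga (by
      have h1 : Set.range (fun b : Fin S.card => ((e.symm b).1 : A)) = (S : Set A) := by
        ext y
        constructor
        · rintro ⟨b, rfl⟩
          exact (e.symm b).2
        · intro hy
          exact ⟨e ⟨y, hy⟩, by simp⟩
      rw [h1]
      exact hA)
  exact hasResolution_of_LM _ (IsFractionRing.injective A K') M'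

end Pool.Agent.Results.MP_19ffc6_ag.CleanCovers
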